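import Pool.Agent.H45.SQ.Targets1

/-!
# MP_22a11a_co, board `sq_modules`: module ALT
-/

set_option autoImplicit false

namespace Pool.Agent.H85.SQ.Alt

open Finset
open scoped BigOperators ComplexConjugate
open Pool.Agent.H45.SQ

section basics

variable {G : Type} [AddCommGroup G] [Fintype G]

lemma tri_left {ι : Type} [Fintype ι] (s t : G) (a : ι → ℂ) (e : ι → G → ℂ) (X g : G → ℂ) :
    Tri s t (fun y => ∑ i, a i * e i y) X g = ∑ i, a i * Tri s t (e i) X g := by
  unfold Tri
  simp only [Finset.mul_expect]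
  rw [← Finset.expect_sum_comm]
  refine Finset.expect_congr rfl fun y _ => ?_
  simp only [Finset.sum_mul]
  exact Finset.sum_congr rfl fun i _ => by ring

lemma tri_mid {ι : Type} [Fintype ι] (s t : G) (a : ι → ℂ) (e X : G → ℂ) (Y : ι → G → ℂ)
    (g : G → ℂ) (hX : X = fun y => ∑ i, a i * Y i y) :
    Tri s t e X g = ∑ i, a i * Tri s t e (Y i) g := by
  subst hX
  unfold Tri
  simp only [Finset.mul_expect]
  rw [← Finset.expect_sum_comm]
  refine Finset.expect_congr rfl fun y _ => ?_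
  simp only [Finset.mul_sum, Finset.sum_mul]
  exact Finset.sum_congr rfl fun i _ => by ring

lemma tri_smul_left (s t : G) (c : ℂ) (e X g : G → ℂ) :
    Tri s t (fun y => c * e y) X g = c * Tri s t e X g := by
  unfold Tri
  rw [Finset.mul_expect]
  exact Finset.expect_congr rfl fun y _ => by ring

/-- norm of a combination of an orthonormal family -/
lemma norm_comb {D : ℕ} (e : Fin D → G → ℂ)
    (he : ∀ i j, 𝔼 y, e i y * conj (e j y) = if i = j then 1 else 0) (c : Fin D → ℂ) :
    𝔼 y, ‖∑ i, c i * e i y‖ ^ 2 = ∑ i, ‖c i‖ ^ 2 := by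
  have h : ((𝔼 y, ‖∑ i, c i * e i y‖ ^ 2 : ℝ) : ℂ) = ((∑ i, ‖c i‖ ^ 2 : ℝ) : ℂ) := by
    push_cast [Complex.ofReal_expect]
    have h1 : ∀ z : ℂ, (‖z‖ : ℂ) ^ 2 = z * conj z := fun z => by
      rw [Complex.mul_conj, Complex.normSq_eq_norm_sq]
      push_cast
      rfl
    simp only [h1]
    have h2 : ∀ y, (∑ i, c i * e i y) * conj (∑ i, c i * e i y) =
        ∑ i, ∑ j, c i * conj (c j) * (e i y * conj (e j y)) := by
      intro y
      rw [map_sum, Finset.sum_mul_sum]
      refine Finset.sum_congr rfl fun i _ => Finset.sum_congr rfl fun j _ => ?_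
      rw [map_mul]
      ring
    simp only [h2]
    rw [Finset.expect_sum_comm]
    refine Finset.sum_congr rfl fun i _ => ?_
    rw [Finset.expect_sum_comm]
    simp only [← Finset.mul_expect, he]
    simp
  exact_mod_cast h

lemma sum_eq_card_mul_expect (f : G → ℝ) : ∑ y, f y = (Fintype.card G : ℝ) * 𝔼 y, f y := by
  rw [Finset.expect_eq_sum_div_card, Finset.card_univ]
  have : (Fintype.card G : ℝ) ≠ 0 := by
    have : 0 < Fintype.card G := Fintype.card_pos_iff.2 ⟨0⟩
    positivity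
  field_simp

end basics

lemma xs_norm (D : ℕ) (ι : Fin D × Fin D × Fin 3) : ∑ i, ‖xs D ι i‖ ^ 2 ≤ 1 := by
  obtain ⟨a, b, c⟩ := ι
  have hI : ‖(1 + Complex.I : ℂ)‖ ^ 2 = 2 := by
    rw [← Complex.normSq_eq_norm_sq, Complex.normSq_apply]
    simp
    norm_num
  by_cases hc0 : c = 0
  · have : ∀ i, ‖xs D (a, b, c) i‖ ^ 2 = if i = a then 1 else 0 := by
      intro i
      unfold xs
      simp only [hc0, if_true]
      split_ifs <;> simp
    simp [this]
  by_cases hc1 : c = 1
  · have h1 : ∀ i, xs D (a, b, c) i = ((if i = a then 1 else 0) + (if i = b then 1 else 0)) / 2 := by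
      intro i
      unfold xs
      simp [hc1]
    by_cases hab : a = b
    · subst hab
      have : ∀ i, ‖xs D (a, a, c) i‖ ^ 2 = if i = a then 1 else 0 := by
        intro i
        rw [h1]
        split_ifs <;> norm_num
      simp [this]
    · have : ∀ i, ‖xs D (a, b, c) i‖ ^ 2 =
          (if i = a then (1 / 4 : ℝ) else 0) + (if i = b then (1 / 4 : ℝ) else 0) := by
        intro i
        rw [h1]
        by_cases h2 : i = a
        · subst h2
          rw [if_pos rfl, if_neg hab, if_pos rfl, if_neg hab]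
          norm_num
        · rw [if_neg h2, if_neg h2]
          split_ifs <;> norm_num
      simp only [this, Finset.sum_add_distrib, Finset.sum_ite_eq', Finset.mem_univ, if_true]
      norm_num
  · have h1 : ∀ i, xs D (a, b, c) i =
        ((if i = a then 1 else 0) + Complex.I * (if i = b then 1 else 0)) / 2 := by
      intro i
      unfold xs
      simp [hc0, hc1]
    by_cases hab : a = b
    · subst hab
      have : ∀ i, ‖xs D (a, a, c) i‖ ^ 2 = if i = a then (1 / 2 : ℝ) else 0 := by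
        intro i
        rw [h1]
        by_cases h2 : i = a
        · rw [if_pos h2, if_pos h2, mul_one, norm_div, div_pow, hI]
          norm_num
        · rw [if_neg h2, if_neg h2]
          simp
      simp only [this, Finset.sum_ite_eq', Finset.mem_univ, if_true]
      norm_num
    · have : ∀ i, ‖xs D (a, b, c) i‖ ^ 2 =
          (if i = a then (1 / 4 : ℝ) else 0) + (if i = b then (1 / 4 : ℝ) else 0) := by
        intro i
        rw [h1]
        by_cases h2 : i = a
        · subst h2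
          rw [if_pos rfl, if_neg hab, if_pos rfl, if_neg hab]
          norm_num
        · rw [if_neg h2, if_neg h2]
          split_ifs
          · simp
            norm_num
          · norm_num
      simp only [this, Finset.sum_add_distrib, Finset.sum_ite_eq', Finset.mem_univ, if_true]
      norm_num

section main

variable {G : Type} [AddCommGroup G] [Fintype G]

lemma range_ok (P : Matrix G G ℂ) {D : ℕ} (e : Fin D → G → ℂ)
    (he : ∀ i j, 𝔼 y, e i y * conj (e j y) = if i = j then 1 else 0)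
    (hP : ∀ i, P.mulVec (e i) = e i) (a : Fin D → ℂ) :
    P.mulVec (fun y => ∑ j, a j * e j y) = (fun y => ∑ j, a j * e j y) ∧
      𝔼 y, ‖∑ j, a j * e j y‖ ^ 2 = ∑ j, ‖a j‖ ^ 2 := by
  refine ⟨?_, norm_comb e he a⟩
  have h1 : (fun y => ∑ j, a j * e j y) = ∑ j, a j • e j := by
    funext y
    simp [Finset.sum_apply]
  rw [h1, Matrix.mulVec_sum]
  refine Finset.sum_congr rfl fun j _ => ?_
  rw [Matrix.mulVec_smul, hP]

/-- the normalising constant `N^{-1/2}` -/
noncomputable def cN (G : Type) [Fintype G] : ℂ := ((Real.sqrt (Fintype.card G))⁻¹ : ℝ)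

omit [AddCommGroup G] in
lemma card_mul_cN [Nonempty G] : (Fintype.card G : ℝ) * ‖cN G‖ ^ 2 = 1 := by
  unfold cN
  rw [Complex.norm_real, Real.norm_eq_abs, sq_abs, inv_pow, Real.sq_sqrt (by positivity)]
  have : (Fintype.card G : ℝ) ≠ 0 := by
    have : 0 < Fintype.card G := Fintype.card_pos
    positivity
  field_simp

lemma unit_norm {D : ℕ} (e : Fin D → G → ℂ)
    (he : ∀ i j, 𝔼 y, e i y * conj (e j y) = if i = j then 1 else 0) (v : Fin D → ℂ)
    (hv : ∑ i, ‖v i‖ ^ 2 = 1) : ∑ y, ‖cN G * ∑ i, v i * e i y‖ ^ 2 = 1 := by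
  have h1 : ∀ y, ‖cN G * ∑ i, v i * e i y‖ ^ 2 = ‖cN G‖ ^ 2 * ‖∑ i, v i * e i y‖ ^ 2 := by
    intro y
    rw [norm_mul, mul_pow]
  simp only [h1]
  rw [← Finset.mul_sum, sum_eq_card_mul_expect, norm_comb e he, hv, mul_one, mul_comm]
  exact card_mul_cN

lemma tri_eq {DA DB : ℕ} (s t : G) (e : Fin DA → G → ℂ) (X : Fin DB → G → ℂ) (g : G → ℂ)
    (v : Fin DA → ℂ) (a : Fin DB → ℂ) :
    (Fintype.card G : ℝ) *
      ‖Tri s t (fun y => cN G * ∑ i, v i * e i y) (fun y => ∑ j, a j * X j y) g‖ ^ 2 =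
      ‖∑ i, ∑ j, v i * a j * Tri s t (e i) (X j) g‖ ^ 2 := by
  rw [tri_smul_left, tri_left, norm_mul, mul_pow, ← mul_assoc, card_mul_cN, one_mul]
  have h1 : ∑ i, v i * Tri s t (e i) (fun y => ∑ j, a j * X j y) g =
      ∑ i, ∑ j, v i * a j * Tri s t (e i) (X j) g := by
    refine Finset.sum_congr rfl fun i _ => ?_
    rw [tri_mid s t a (e i) _ X g rfl, Finset.mul_sum]
    exact Finset.sum_congr rfl fun j _ => by ring
  rw [h1]

lemma tri_eq' {DA DB : ℕ} (s t : G) (e : Fin DA → G → ℂ) (X : Fin DB → G → ℂ) (g : G → ℂ)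
    (a : Fin DA → ℂ) (x : Fin DB → ℂ) :
    (Fintype.card G : ℝ) *
      ‖Tri s t (fun y => ∑ i, a i * e i y) (fun y => cN G * ∑ j, x j * X j y) g‖ ^ 2 =
      ‖∑ i, ∑ j, a i * x j * Tri s t (e i) (X j) g‖ ^ 2 := by
  have h1 : (fun y => cN G * ∑ j, x j * X j y) = fun y => ∑ j, (cN G * x j) * X j y := by
    funext y
    rw [Finset.mul_sum]
    exact Finset.sum_congr rfl fun j _ => by ring
  rw [tri_left]
  have h2 : ∑ i, a i * Tri s t (e i) (fun y => cN G * ∑ j, x j * X j y) g =
      cN G * ∑ i, ∑ j, a i * x j * Tri s t (e i) (X j) g := by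
    rw [Finset.mul_sum]
    refine Finset.sum_congr rfl fun i _ => ?_
    rw [tri_mid s t (fun j => cN G * x j) (e i) _ X g h1, Finset.mul_sum, Finset.mul_sum]
    exact Finset.sum_congr rfl fun j _ => by ring
  rw [h2, norm_mul, mul_pow, ← mul_assoc, card_mul_cN, one_mul]

variable [Module (ZMod 2) G]

lemma tri_refl (s t : G) (e w g : G → ℂ) :
    Tri t s (fun y => conj (w (y + t))) (fun y => conj (e (y + s)))
      (fun y => conj (g (y + (s + t)))) = conj (Tri s t e w g) := by
  have h2 : ∀ x : G, x + x = 0 := fun x => by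
    have := two_smul (ZMod 2) x
    rw [← this]
    have h3 : (2 : ZMod 2) = 0 := by decide
    rw [h3, zero_smul]
  unfold Tri
  rw [Finset.expect_eq_sum_div_card, Finset.expect_eq_sum_div_card, map_div₀, map_sum,
    Complex.conj_natCast]
  congr 1
  refine Fintype.sum_equiv (Equiv.addRight (s + t)) _ _ fun y => ?_
  simp only [Equiv.coe_addRight, map_mul]
  have e1 : y + (s + t) + s = y + t := by
    calc y + (s + t) + s = y + t + (s + s) := by abel
      _ = y + t := by rw [h2, add_zero]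
  have e2 : y + (s + t) + s + t = y := by
    calc y + (s + t) + s + t = y + (s + s) + (t + t) := by abel
      _ = y := by rw [h2, h2, add_zero, add_zero]
  have e3 : y + t + s = y + (s + t) := by abel
  have e4 : y + t + s + (s + t) = y := by
    calc y + t + s + (s + t) = y + (s + s) + (t + t) := by abel
      _ = y := by rw [h2, h2, add_zero, add_zero]
  rw [e2, e1, e4, e3]
  ring

end main

theorem alt (hLA : T_LA) (hBAS : T_BAS) (hTHB : T_THB) (hTWI : T_TWI) : T_ALT := by
  intro DA DB DC θ hθ hD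
  obtain ⟨ξ, hξ, hLA⟩ := hLA DA DB DC θ hθ hD
  let en : Fin (Fintype.card ((Fin DA × Fin DA × Fin 3) ⊕ (Fin DB × Fin DB × Fin 3))) ≃
    (Fin DA × Fin DA × Fin 3) ⊕ (Fin DB × Fin DB × Fin 3) := (Fintype.equivFin _).symm
  refine ⟨ξ, Fintype.card ((Fin DA × Fin DA × Fin 3) ⊕ (Fin DB × Fin DB × Fin 3)), hξ, ?_⟩
  intro G _ _ _ _ f K Λ p A B C PA PB PC S hS
  have bases : ∀ (P : G → Matrix G G ℂ) (D : ℕ), ∃ e : G → Fin D → G → ℂ, ∀ s,
      Proj (P s) → (P s).trace = (D : ℂ) →
      (∀ i j, 𝔼 y, e s i y * conj (e s j y) = if i = j then 1 else 0) ∧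
      (∀ i, (P s).mulVec (e s i) = e s i) ∧
      (∀ y y', P s y y' = ((Fintype.card G : ℂ))⁻¹ * ∑ i, e s i y * conj (e s i y')) := by
    intro P D
    have h : ∀ s, ∃ e : Fin D → G → ℂ, Proj (P s) → (P s).trace = (D : ℂ) →
      (∀ i j, 𝔼 y, e i y * conj (e j y) = if i = j then 1 else 0) ∧
      (∀ i, (P s).mulVec (e i) = e i) ∧
      (∀ y y', P s y y' = ((Fintype.card G : ℂ))⁻¹ * ∑ i, e i y * conj (e i y')) := by
      intro s
      by_cases hs : Proj (P s) ∧ (P s).trace = (D : ℂ)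
      · obtain ⟨e, he⟩ := hBAS G (P s) D hs.1 hs.2
        exact ⟨e, fun _ _ => he⟩
      · exact ⟨fun _ _ => 0, fun h1 h2 => absurd ⟨h1, h2⟩ hs⟩
    choose e he using h
    exact ⟨e, he⟩
  obtain ⟨eA, heA⟩ := bases PA DA
  obtain ⟨eB, heB⟩ := bases PB DB
  obtain ⟨eC, heC⟩ := bases PC DC
  refine ⟨fun s i => (en i).elim (fun ι y => ∑ j, xs DA ι j * eA s j y) (fun _ _ => 0),
    fun t i => (en i).elim (fun _ _ => 0) (fun ι y => ∑ j, xs DB ι j * eB t j y), ?_, ?_, ?_⟩
  · intro z hz i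
    obtain ⟨h1, h2, h3⟩ := heA z.1 (hS.gapA z hz).proj (hS.gapA z hz).rank
    rcases hi : en i with ι | ι
    · have := range_ok (PA z.1) (eA z.1) h1 h2 (xs DA ι)
      simp only [hi, Sum.elim_inl]
      exact ⟨this.1, this.2.trans_le (xs_norm _ _)⟩
    · simp only [hi, Sum.elim_inr]
      refine ⟨?_, by simp⟩
      exact Matrix.mulVec_zero _
  · intro z hz i
    obtain ⟨h1, h2, h3⟩ := heB z.2 (hS.gapB z hz).proj (hS.gapB z hz).rank
    rcases hi : en i with ι | ι
    · simp only [hi, Sum.elim_inl]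
      refine ⟨?_, by simp⟩
      exact Matrix.mulVec_zero _
    · have := range_ok (PB z.2) (eB z.2) h1 h2 (xs DB ι)
      simp only [hi, Sum.elim_inr]
      exact ⟨this.1, this.2.trans_le (xs_norm _ _)⟩
  · intro z hz
    obtain ⟨hA1, hA2, hA3⟩ := heA z.1 (hS.gapA z hz).proj (hS.gapA z hz).rank
    obtain ⟨hB1, hB2, hB3⟩ := heB z.2 (hS.gapB z hz).proj (hS.gapB z hz).rank
    obtain ⟨hC1, hC2, hC3⟩ := heC (z.1 + z.2) (hS.gapC z hz).proj (hS.gapC z hz).rank
    obtain ⟨hT1, -, hT3⟩ := hTHB G z.1 z.2 DA DB DC (eA z.1) (eB z.2) (eC (z.1 + z.2))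
      (PA z.1) (PB z.2) (PC (z.1 + z.2)) hA3 hB3 hC3
    have hth := hS.theta z hz
    rw [hT1, Complex.ofReal_re] at hth
    rcases hLA (fun i j k => Tri z.1 z.2 (eA z.1 i) (eB z.2 j) (eC (z.1 + z.2) k)) hth with
      ⟨ι, v, v', hv, hv', hle⟩ | ⟨ι, x, x', hx, hx', hle⟩
    · left
      refine ⟨en.symm (Sum.inr ι), fun y => cN G * ∑ i, v i * eA z.1 i y,
        fun y => cN G * ∑ i, v' i * eA z.1 i y, ?_, ?_, unit_norm _ hA1 v hv,
        unit_norm _ hA1 v' hv', ?_⟩
      · have := (range_ok (PA z.1) (eA z.1) hA1 hA2 v).1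
        have h2 : (fun y => cN G * ∑ i, v i * eA z.1 i y) =
          cN G • (fun y => ∑ i, v i * eA z.1 i y) := rfl
        rw [h2, Matrix.mulVec_smul, this]
      · have := (range_ok (PA z.1) (eA z.1) hA1 hA2 v').1
        have h2 : (fun y => cN G * ∑ i, v' i * eA z.1 i y) =
          cN G • (fun y => ∑ i, v' i * eA z.1 i y) := rfl
        rw [h2, Matrix.mulVec_smul, this]
      · simp only [Equiv.apply_symm_apply, Sum.elim_inr]
        rw [hT3, hT3, Finset.mul_sum, Finset.mul_sum]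
        simp only [tri_eq]
        exact hle
    · right
      have hg : ∀ y y', twist (z.1 + z.2) (PC (z.1 + z.2)) y y' =
          ((Fintype.card G : ℂ))⁻¹ * ∑ k, (fun y => conj (eC (z.1 + z.2) k (y + (z.1 + z.2)))) y *
            conj ((fun y => conj (eC (z.1 + z.2) k (y + (z.1 + z.2)))) y') := by
        intro y y'
        unfold twist
        rw [hC3, map_mul, map_inv₀, Complex.conj_natCast, map_sum]
        congr 1
        refine Finset.sum_congr rfl fun k _ => ?_
        rw [map_mul]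
      obtain ⟨-, -, hT3'⟩ := hTHB G z.2 z.1 0 0 DC (fun _ _ => 0) (fun _ _ => 0)
        (fun k y => conj (eC (z.1 + z.2) k (y + (z.1 + z.2)))) 0 0
        (twist (z.1 + z.2) (PC (z.1 + z.2))) (by intro y y'; simp) (by intro y y'; simp) hg
      obtain ⟨-, -, hW, -, -⟩ := hTWI G z.2 0 0 (PB z.2) 0 0 0
      have hfix : ∀ u : Fin DB → ℂ, (twist z.2 (PB z.2)).mulVec
          (fun y => conj ((fun y => cN G * ∑ j, u j * eB z.2 j y) (y + z.2))) =
            fun y => conj ((fun y => cN G * ∑ j, u j * eB z.2 j y) (y + z.2)) := by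
        intro u
        have h1 : (PB z.2).mulVec (fun y => cN G * ∑ j, u j * eB z.2 j y) =
            fun y => cN G * ∑ j, u j * eB z.2 j y := by
          have := (range_ok (PB z.2) (eB z.2) hB1 hB2 u).1
          have h2 : (fun y => cN G * ∑ i, u i * eB z.2 i y) =
            cN G • (fun y => ∑ i, u i * eB z.2 i y) := rfl
          rw [h2, Matrix.mulVec_smul, this]
        exact hW (fun y => cN G * ∑ j, u j * eB z.2 j y) h1
      have hnorm : ∀ u : Fin DB → ℂ, ∑ i, ‖u i‖ ^ 2 = 1 →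
          ∑ y, ‖conj ((fun y => cN G * ∑ j, u j * eB z.2 j y) (y + z.2))‖ ^ 2 = 1 := by
        intro u hu
        rw [← unit_norm (eB z.2) hB1 u hu]
        refine Fintype.sum_equiv (Equiv.addRight z.2) _ _ fun y => ?_
        simp only [Equiv.coe_addRight, RCLike.norm_conj]
      refine ⟨en.symm (Sum.inl ι),
        fun y => conj ((fun y => cN G * ∑ j, x j * eB z.2 j y) (y + z.2)),
        fun y => conj ((fun y => cN G * ∑ j, x' j * eB z.2 j y) (y + z.2)),
        hfix x, hfix x', hnorm x hx, hnorm x' hx', ?_⟩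
      simp only [Equiv.apply_symm_apply, Sum.elim_inl]
      rw [hT3', hT3', Finset.mul_sum, Finset.mul_sum]
      have hkey : ∀ (u : Fin DB → ℂ) (k : Fin DC), (Fintype.card G : ℝ) *
          ‖Tri z.2 z.1 (fun y => conj ((fun y => cN G * ∑ j, u j * eB z.2 j y) (y + z.2)))
            (fun y => conj (∑ j, xs DA ι j * eA z.1 j (y + z.1)))
            (fun y => conj (eC (z.1 + z.2) k (y + (z.1 + z.2))))‖ ^ 2 =
          ‖∑ i, ∑ j, xs DA ι i * u j * Tri z.1 z.2 (eA z.1 i) (eB z.2 j) (eC (z.1 + z.2) k)‖ ^ 2 := by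
        intro u k
        rw [← tri_eq']
        congr 2
        have := tri_refl z.1 z.2 (fun y => ∑ j, xs DA ι j * eA z.1 j y)
          (fun y => cN G * ∑ j, u j * eB z.2 j y) (eC (z.1 + z.2) k)
        rw [this, RCLike.norm_conj]
      simp only [hkey]
      exact hle

end Pool.Agent.H85.SQ.Alt
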