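import Pool.Agent.H45.SQ.Targets2

/-!
# MP_22a11a_co, board `sq_modules`: module REGH
-/

set_option autoImplicit false

namespace Pool.Agent.H85.SQ

open Finset
open scoped BigOperators ComplexConjugate
open Pool.Agent.H45.SQ

lemma zero_mem_hs {G : Type} [AddCommGroup G] [Fintype G] [Module (ZMod 2) G]
    (H : Submodule (ZMod 2) G) : (0 : G) ∈ hs H := by
  classical
  unfold hs
  simp

lemma En_le_one {G : Type} [AddCommGroup G] [Fintype G] [Module (ZMod 2) G]
    (H : Submodule (ZMod 2) G) (φ : G → ℂ) (hφ : ∀ x, ‖φ x‖ ≤ 1) : En φ H ≤ 1 := by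
  unfold En
  refine Finset.expect_le ⟨0, mem_univ _⟩ fun x _ => ?_
  have h1 : ‖𝔼 h ∈ hs H, φ (x + h)‖ ≤ 1 :=
    (RCLike.norm_expect_le (K := ℂ)).trans
      (Finset.expect_le ⟨0, zero_mem_hs H⟩ fun h _ => hφ _)
  have h0 := norm_nonneg (𝔼 h ∈ hs H, φ (x + h))
  nlinarith

lemma En_nonneg {G : Type} [AddCommGroup G] [Fintype G] [Module (ZMod 2) G]
    (H : Submodule (ZMod 2) G) (φ : G → ℂ) : 0 ≤ En φ H :=
  Finset.expect_nonneg fun _ _ => sq_nonneg _

lemma Fc_nonneg {G : Type} [AddCommGroup G] [Fintype G] [Module (ZMod 2) G]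
    (H : Submodule (ZMod 2) G) (φ : G → ℂ) (l : Module.Dual (ZMod 2) G) : 0 ≤ Fc φ H l :=
  Finset.expect_nonneg fun _ _ => sq_nonneg _

theorem regh (hINC : T_INC) : T_REGH := by
  intro κ C m hκ
  obtain ⟨T, hT⟩ := exists_nat_gt ((m : ℝ) * C / κ)
  refine ⟨2 ^ T, ?_⟩
  intro G _ _ _ _ Ω _ c φ hc hcC hφ
  classical
  obtain ⟨E, hE⟩ : ∃ E : Submodule (ZMod 2) G → ℝ,
    ∀ H, E H = ∑ i, ∑ w, c i w * En (φ i w) H := ⟨_, fun _ => rfl⟩
  have hE0 : ∀ H, 0 ≤ E H := fun H => by
    rw [hE]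
    exact sum_nonneg fun i _ => sum_nonneg fun w _ => mul_nonneg (hc i w) (En_nonneg _ _)
  have hE1 : ∀ H, E H ≤ m * C := fun H => by
    rw [hE]
    calc ∑ i, ∑ w, c i w * En (φ i w) H ≤ ∑ i : Fin m, C := by
          refine sum_le_sum fun i _ => le_trans (sum_le_sum fun w _ => ?_) (hcC i)
          exact mul_le_of_le_one_right (hc i w) (En_le_one _ _ (hφ i w))
      _ = m * C := by simp
  by_contra hcon
  push Not at hcon
  have key : ∀ t : ℕ, t ≤ T → ∃ H : Submodule (ZMod 2) G,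
      Fintype.card G ≤ 2 ^ t * (hs H).card ∧ (t : ℝ) * κ ≤ E H := by
    intro t
    induction t with
    | zero =>
      intro _
      refine ⟨⊤, ?_, by simpa using hE0 ⊤⟩
      have : hs (⊤ : Submodule (ZMod 2) G) = Finset.univ := by
        unfold hs
        simp
      rw [this, Finset.card_univ]
      simp
    | succ t ih =>
      intro ht
      obtain ⟨H, hH1, hH2⟩ := ih (by omega)
      have hH1' : Fintype.card G ≤ 2 ^ T * (hs H).card :=
        hH1.trans (Nat.mul_le_mul_right _ (Nat.pow_le_pow_right (by norm_num) (by omega)))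
      obtain ⟨i, l, hl, hlt⟩ := hcon H hH1'
      obtain ⟨h1, h2⟩ := hINC G H l hl
      refine ⟨H ⊓ LinearMap.ker l, ?_, ?_⟩
      · rw [pow_succ, mul_assoc, ← h1]
        exact hH1
      · have h3 : E (H ⊓ LinearMap.ker l) = E H + ∑ i, ∑ w, c i w * Fc (φ i w) H l := by
          rw [hE, hE, ← sum_add_distrib]
          refine sum_congr rfl fun i _ => ?_
          rw [← sum_add_distrib]
          refine sum_congr rfl fun w _ => ?_
          rw [h2, mul_add]
        have h4 : κ ≤ ∑ i, ∑ w, c i w * Fc (φ i w) H l := by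
          refine hlt.le.trans ?_
          exact single_le_sum (f := fun i => ∑ w, c i w * Fc (φ i w) H l)
            (fun i _ => sum_nonneg fun w _ => mul_nonneg (hc i w) (Fc_nonneg _ _ _)) (mem_univ i)
        rw [h3]
        push_cast
        linarith
  obtain ⟨H, _, hH⟩ := key T le_rfl
  have h5 := hE1 H
  rw [div_lt_iff₀ hκ] at hT
  linarith

end Pool.Agent.H85.SQ
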